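import Pool.Agent.X227.EqM.Rel
import Pool.Agent.X227.EqM.Std

set_option autoImplicit false

/-!
# MP_79b5eb_lc: the equality problem in the varieties `M(n)` and `S(n)`

The equality problem is undecidable in `M(n)` for all `n ≥ 3` and in `S(n)` for all `n ≥ 6`, over
every field of characteristic zero. Already the word problem of one finitely presented algebra is
undecidable in all these varieties, and in every class of algebras that contains `M(3)`.
-/

namespace Pool.Agent.Results.MP_79b5eb_lc.MatrixVarieties

open Pool.Agent.X227.EqM Pool.Agent.X238.Osr Matrix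

universe u v w

/-- Nonempty words in the variables `x_0, x_1, …`; the pair `(i, l)` stands for the word
`x_i x_{l_1} x_{l_2} ⋯`, where `l_1, l_2, …` are the elements of the list `l`. -/
abbrev Wd : Type := ℕ × List ℕ

/-- The product of `b` and the elements of the list `l`, in this order. -/
def lprod {B : Type u} [Mul B] (b : B) (l : List B) : B := l.foldl (fun c d => c * d) b

/-- The value of a word at the elements `v 0, v 1, …` of an algebra. -/
def wval {B : Type u} [Mul B] (v : ℕ → B) (w : Wd) : B := lprod (v w.1) (w.2.map v)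

/-- The value of a noncommutative polynomial without constant term with coefficients in `F`,
given as a list of terms. -/
def fval {F : Type u} {B : Type v} [Field F] [NonUnitalRing B] [Module F B] (v : ℕ → B)
    (p : List (F × Wd)) : B := (p.map fun t => t.1 • wval v t.2).sum

/-- Noncommutative polynomials without constant term with rational coefficients, given as lists of
terms; `((a, d), w)` stands for the term `a / (d + 1) · w`. -/
abbrev QPoly : Type := List ((ℤ × ℕ) × Wd)

/-- The value of a polynomial with rational coefficients. -/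
def qval (F : Type u) {B : Type v} [Field F] [NonUnitalRing B] [Module F B] (v : ℕ → B)
    (p : QPoly) : B := (p.map fun t => ((t.1.1 : F) / ((t.1.2 : F) + 1)) • wval v t.2).sum

/-- Quasi-identities: the list of the premises `u_1, …, u_k` and the conclusion `u`. -/
abbrev QId : Type := List QPoly × QPoly

/-- The quasi-identity `∀ x, u_1 = 0 ∧ … ∧ u_k = 0 → u = 0` holds in the algebra `B`. -/
def Holds (F : Type u) (B : Type v) [Field F] [NonUnitalRing B] [Module F B] (Q : QId) : Prop :=
  ∀ v : ℕ → B, (∀ p ∈ Q.1, qval F v p = 0) → qval F v Q.2 = 0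

/-- The algebra `B` belongs to `M(n)`: it satisfies all the polynomial identities of the algebra of
`n × n` matrices over `F`. -/
def InM (F : Type u) (n : ℕ) (B : Type v) [Field F] [NonUnitalRing B] [Module F B] : Prop :=
  ∀ p : List (F × Wd), (∀ v : ℕ → Matrix (Fin n) (Fin n) F, fval v p = 0) →
    ∀ v : ℕ → B, fval v p = 0

/-- The value of the standard polynomial of degree `m + 1`. -/
def stdv {B : Type v} [NonUnitalRing B] {m : ℕ} (x : Fin (m + 1) → B) : B :=
  ∑ σ : Equiv.Perm (Fin (m + 1)), ((Equiv.Perm.sign σ : ℤˣ) : ℤ) •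
    lprod (x (σ 0)) (List.ofFn fun i : Fin m => x (σ i.succ))

/-- The algebra `B` belongs to `S(n)`: it satisfies the standard identity of degree `n`. -/
def InS (n : ℕ) (B : Type v) [NonUnitalRing B] : Prop :=
  ∀ m : ℕ, n = m + 1 → ∀ x : Fin (m + 1) → B, stdv x = 0

/-- The equality problem of `M(n)`: the quasi-identity holds in all the algebras of `M(n)`. -/
def EqM (F : Type u) [Field F] (n : ℕ) (Q : QId) : Prop :=
  ∀ (B : Type u) [NonUnitalRing B] [Module F B] [IsScalarTower F B B] [SMulCommClass F B B],
    InM F n B → Holds F B Q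

/-- The equality problem of `S(n)`: the quasi-identity holds in all the algebras of `S(n)`. -/
def EqS (F : Type u) [Field F] (n : ℕ) (Q : QId) : Prop :=
  ∀ (B : Type u) [NonUnitalRing B] [Module F B] [IsScalarTower F B B] [SMulCommClass F B B],
    InS n B → Holds F B Q

/-! ### values and homomorphisms -/

theorem lprod_map {B : Type u} {C : Type v} [Mul B] [Mul C] (f : B → C)
    (hm : ∀ a b, f (a * b) = f a * f b) (l : List B) :
    ∀ b : B, f (lprod b l) = lprod (f b) (l.map f) := by
  induction l with
  | nil => intro b; rfl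
  | cons c l ih =>
    intro b
    change f (lprod (b * c) l) = lprod (f b * f c) (l.map f)
    rw [ih, hm]

theorem lprod_eq {B : Type u} [Monoid B] (l : List B) : ∀ b : B, lprod b l = (b :: l).prod := by
  induction l with
  | nil => intro b; simp [lprod]
  | cons c l ih =>
    intro b
    change lprod (b * c) l = _
    rw [ih, List.prod_cons, List.prod_cons, List.prod_cons, mul_assoc]

theorem wval_map {B : Type u} {C : Type v} [Mul B] [Mul C] (f : B → C)
    (hm : ∀ a b, f (a * b) = f a * f b) (v : ℕ → B) (w : Wd) :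
    f (wval v w) = wval (fun i => f (v i)) w := by
  unfold wval
  rw [lprod_map f hm, List.map_map]
  rfl

section map

variable {F : Type u} [Field F] {B : Type v} {C : Type w} [NonUnitalRing B] [Module F B]
  [NonUnitalRing C] [Module F C]

theorem fval_map (f : B → C) (h0 : f 0 = 0) (ha : ∀ a b, f (a + b) = f a + f b)
    (hm : ∀ a b, f (a * b) = f a * f b) (hs : ∀ (c : F) a, f (c • a) = c • f a)
    (v : ℕ → B) (p : List (F × Wd)) : f (fval v p) = fval (fun i => f (v i)) p := by
  induction p with
  | nil => exact h0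
  | cons t p ih =>
    unfold fval at ih ⊢
    rw [List.map_cons, List.map_cons, List.sum_cons, List.sum_cons, ha, hs, wval_map f hm, ih]

end map

/-! ### identities of matrices -/

section ident

variable {F : Type u} [Field F]

/-- identities pass to smaller matrices -/
theorem ident_down {n : ℕ} (hn : 3 ≤ n) {p : List (F × Wd)}
    (hp : ∀ v : ℕ → Matrix (Fin n) (Fin n) F, fval v p = 0) :
    ∀ v : ℕ → Matrix (Fin 3) (Fin 3) F, fval v p = 0 := by
  intro v
  let E : Matrix (Fin 3) (Fin n) F := Matrix.of fun i j => if (j : ℕ) = i then 1 else 0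
  have hE : E * Eᵀ = 1 := by
    ext i j
    rw [Matrix.mul_apply, Finset.sum_eq_single (Fin.castLE hn i)]
    · simp only [E, Matrix.of_apply, Matrix.transpose_apply, Fin.val_castLE, if_true, one_mul,
        Matrix.one_apply]
      by_cases h : i = j
      · simp [h]
      · rw [if_neg (fun e => h (Fin.ext e)), if_neg h]
    · intro b _ hb
      have : ¬ (b : ℕ) = i := fun e => hb (Fin.ext e)
      simp [E, this]
    · intro h
      exact absurd (Finset.mem_univ _) h
  let f : Matrix (Fin 3) (Fin 3) F → Matrix (Fin n) (Fin n) F := fun A => Eᵀ * A * E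
  have hf := fval_map (F := F) f (by simp [f]) (by intro a b; simp only [f, Matrix.mul_add, Matrix.add_mul])
    (by
      intro a b
      simp only [f]
      calc Eᵀ * (a * b) * E = Eᵀ * a * (1 : Matrix (Fin 3) (Fin 3) F) * (b * E) := by
            rw [Matrix.mul_one]; simp only [Matrix.mul_assoc]
        _ = Eᵀ * a * (E * Eᵀ) * (b * E) := by rw [hE]
        _ = Eᵀ * a * E * (Eᵀ * b * E) := by simp only [Matrix.mul_assoc])
    (by intro c a; simp [f]) v p
  rw [hp] at hf
  have h2 : E * (Eᵀ * fval v p * E) * Eᵀ = fval v p := by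
    calc E * (Eᵀ * fval v p * E) * Eᵀ = (E * Eᵀ) * fval v p * (E * Eᵀ) := by
          simp only [Matrix.mul_assoc]
      _ = fval v p := by rw [hE, Matrix.one_mul, Matrix.mul_one]
  rw [← h2]
  change E * f (fval v p) * Eᵀ = 0
  rw [hf, Matrix.mul_zero, Matrix.zero_mul]

/-- identities of matrices over an infinite field hold for matrices over commutative algebras -/
theorem ident_up [Infinite F] {m : ℕ} {p : List (F × Wd)}
    (hp : ∀ v : ℕ → Matrix (Fin m) (Fin m) F, fval v p = 0) {P : Type v} [CommRing P]
    [Algebra F P] (v : ℕ → Matrix (Fin m) (Fin m) P) : fval v p = 0 := by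
  let G : ℕ → Matrix (Fin m) (Fin m) (MvPolynomial (ℕ × Fin m × Fin m) F) :=
    fun k => Matrix.of fun i j => MvPolynomial.X (k, i, j)
  have hG : fval G p = 0 := by
    ext1 i j
    rw [Matrix.zero_apply]
    refine MvPolynomial.funext fun a => ?_
    rw [map_zero]
    let f := (MvPolynomial.aeval a : MvPolynomial (ℕ × Fin m × Fin m) F →ₐ[F] F).mapMatrix
      (m := Fin m)
    have hf := fval_map (F := F) (fun A => f A) (map_zero f) (map_add f) (map_mul f)
      (map_smul f) G p
    rw [hp] at hf
    have := congrFun (congrFun hf i) j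
    exact this
  let f := (MvPolynomial.aeval (fun t : ℕ × Fin m × Fin m => v t.1 t.2.1 t.2.2) :
    MvPolynomial (ℕ × Fin m × Fin m) F →ₐ[F] P).mapMatrix (m := Fin m)
  have hf := fval_map (F := F) (fun A => f A) (map_zero f) (map_add f) (map_mul f)
    (map_smul f) G p
  rw [hG] at hf
  have hv : (fun i => (fun A => f A) (G i)) = v := by
    funext k
    ext i j
    simp [f, G]
  rw [hv] at hf
  rw [← hf]
  exact map_zero f

end ident

/-! ### the algebras -/

section alg

variable {F : Type u} [Field F] {Nd : Type} {K : ℕ} (M : AM Nd K)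
  {ι : Type} [Fintype ι] [DecidableEq ι] (V : Vx ι)
  (E : NonUnitalSubalgebra F (Matrix ι ι (Pl F Nd K)))

/-- the classes of the matrices in `E` -/
noncomputable def Cq : NonUnitalSubalgebra F (Qa F M V) where
  carrier := {c | ∃ a : Ua F Nd K V, a.1 ∈ E ∧ mq F M V a = c}
  add_mem' := by
    rintro _ _ ⟨a, ha, rfl⟩ ⟨b, hb, rfl⟩
    exact ⟨a + b, E.add_mem ha hb, map_add _ _ _⟩
  mul_mem' := by
    rintro _ _ ⟨a, ha, rfl⟩ ⟨b, hb, rfl⟩
    exact ⟨a * b, E.mul_mem ha hb, map_mul _ _ _⟩
  zero_mem' := ⟨0, E.zero_mem, map_zero _⟩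
  smul_mem' := by
    rintro c _ ⟨a, ha, rfl⟩
    exact ⟨c • a, E.smul_mem' c ha, map_smul _ _ _⟩

theorem Cq_ident {p : List (F × Wd)}
    (hp : ∀ v : ℕ → Matrix ι ι (Pl F Nd K), fval v p = 0) (v : ℕ → Cq M V E) :
    fval v p = 0 := by
  choose a ha hv using fun k => (v k).2
  have h1 := fval_map (F := F) (fun c : Cq M V E => (c : Qa F M V)) rfl (fun _ _ => rfl)
    (fun _ _ => rfl) (fun _ _ => rfl) v p
  have h2 := fval_map (F := F) (fun c : Ua F Nd K V => mq F M V c) (map_zero _)
    (map_add _) (map_mul _) (map_smul _) a p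
  have h3 := fval_map (F := F) (fun c : Ua F Nd K V => (c : Matrix ι ι (Pl F Nd K))) rfl
    (fun _ _ => rfl) (fun _ _ => rfl) (fun _ _ => rfl) a p
  rw [hp] at h3
  have h4 : fval a p = 0 := Subtype.ext h3
  apply Subtype.ext
  have h5 : (fun i => (fun c : Cq M V E => (c : Qa F M V)) (v i)) =
      fun i => (fun c : Ua F Nd K V => mq F M V c) (a i) := by
    funext i
    exact (hv i).symm
  have h6 : ((fval v p : Cq M V E) : Qa F M V) = mq F M V (fval a p) := by
    rw [h5, ← h2] at h1
    exact h1
  rw [h6, h4]
  exact map_zero _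

theorem Cq_std {m : ℕ}
    (hE : ∀ x : Fin (m + 1) → Matrix ι ι (Pl F Nd K), (∀ k, x k ∈ E) →
      ∑ σ : Equiv.Perm (Fin (m + 1)), ((Equiv.Perm.sign σ : ℤˣ) : ℤ) •
        (List.ofFn (x ∘ σ)).prod = 0) (x : Fin (m + 1) → Cq M V E) : stdv x = 0 := by
  choose a ha hx using fun k => (x k).2
  have h1 : ∀ σ : Equiv.Perm (Fin (m + 1)),
      ((lprod (x (σ 0)) (List.ofFn fun i : Fin m => x (σ i.succ)) : Cq M V E) : Qa F M V) =
        mq F M V (List.ofFn (a ∘ σ)).prod := by
    intro σ
    rw [lprod_map (fun c : Cq M V E => (c : Qa F M V)) (fun _ _ => rfl), lprod_eq,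
      List.ofFn_succ, map_list_prod, List.map_cons, List.map_ofFn, List.map_ofFn]
    congr 2
    · exact (hx _).symm
    · congr 1
      funext i
      exact (hx _).symm
  have h2 : ∑ σ : Equiv.Perm (Fin (m + 1)), ((Equiv.Perm.sign σ : ℤˣ) : ℤ) •
      (List.ofFn (a ∘ σ)).prod = 0 := by
    apply Subtype.ext
    have h3 := hE (fun k => (a k).1) ha
    have h4 : ((∑ σ : Equiv.Perm (Fin (m + 1)), ((Equiv.Perm.sign σ : ℤˣ) : ℤ) •
        (List.ofFn (a ∘ σ)).prod : Ua F Nd K V) : Matrix ι ι (Pl F Nd K)) =
        ∑ σ : Equiv.Perm (Fin (m + 1)), ((Equiv.Perm.sign σ : ℤˣ) : ℤ) •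
        (List.ofFn ((fun k => (a k).1) ∘ σ)).prod := by
      have h5 := map_sum (Ua F Nd K V).val (fun σ : Equiv.Perm (Fin (m + 1)) =>
        ((Equiv.Perm.sign σ : ℤˣ) : ℤ) • (List.ofFn (a ∘ σ)).prod) Finset.univ
      refine h5.trans (Finset.sum_congr rfl fun σ _ => ?_)
      rw [map_zsmul, map_list_prod, List.map_ofFn]
      rfl
    rw [h4, h3]
    rfl
  apply Subtype.ext
  have h6 : ((stdv x : Cq M V E) : Qa F M V) =
      ∑ σ : Equiv.Perm (Fin (m + 1)), ((Equiv.Perm.sign σ : ℤˣ) : ℤ) •
        mq F M V (List.ofFn (a ∘ σ)).prod := by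
    unfold stdv
    have h7 := map_sum (NonUnitalSubalgebraClass.subtype (Cq M V E))
      (fun σ : Equiv.Perm (Fin (m + 1)) => ((Equiv.Perm.sign σ : ℤˣ) : ℤ) •
        lprod (x (σ 0)) (List.ofFn fun i : Fin m => x (σ i.succ))) Finset.univ
    refine h7.trans (Finset.sum_congr rfl fun σ _ => ?_)
    rw [map_zsmul]
    congr 1
    exact h1 σ
  rw [h6]
  have h8 := congrArg (mq F M V) h2
  rw [map_sum, map_zero] at h8
  refine Eq.trans (Finset.sum_congr rfl fun σ _ => ?_) h8
  rw [map_zsmul]

/-- the class of a generator -/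
noncomputable def cg (hE : ∀ g, gm F V g ∈ E) (g : Gn Nd K) : Cq M V E :=
  ⟨gv F M V g, ⟨⟨gm F V g, gm_mem V g⟩, hE g, rfl⟩⟩

end alg

/-! ### triangular matrices -/

/-- the triangular matrices -/
def TrE (F : Type u) [Field F] (P : Type u) [CommRing P] [Algebra F P] :
    NonUnitalSubalgebra F (Matrix (Fin 4) (Fin 4) P) where
  carrier := {A | Tri A}
  add_mem' {A B} hA hB i j h := by
    rw [Matrix.add_apply, hA i j h, hB i j h, add_zero]
  mul_mem' {A B} hA hB i j h := by
    rw [Matrix.mul_apply]
    refine Finset.sum_eq_zero fun k _ => ?_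
    rcases h with h | ⟨rfl, h⟩
    · by_cases hk : k < i
      · rw [hA i k (.inl hk), zero_mul]
      · rw [hB k j (.inl (lt_of_lt_of_le h (not_lt.1 hk))), mul_zero]
    · rcases lt_trichotomy k i with hk | hk | hk
      · rw [hA i k (.inl hk), zero_mul]
      · subst hk
        rw [hA k k (.inr ⟨rfl, h⟩), zero_mul]
      · rw [hB k i (.inl hk), mul_zero]
  zero_mem' i j _ := rfl
  smul_mem' c A hA i j h := by
    rw [Matrix.smul_apply, hA i j h, smul_zero]

/-- three vertices -/
def V3 : Vx (Fin 3) where
  p0 := 0
  p1 := 0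
  p2 := 1
  p3 := 2
  h02 := by decide
  h03 := by decide
  h12 := by decide
  h13 := by decide
  h23 := by decide

/-- four vertices -/
def V4 : Vx (Fin 4) where
  p0 := 0
  p1 := 3
  p2 := 1
  p3 := 2
  h02 := by decide
  h03 := by decide
  h12 := by decide
  h13 := by decide
  h23 := by decide

theorem gm_Tr {F : Type u} [Field F] {Nd : Type} {K : ℕ} (g : Gn Nd K) :
    gm F V4 g ∈ TrE F (Pl F Nd K) := by
  intro i j h
  unfold gm
  rw [Matrix.single_apply_of_ne]
  rintro ⟨rfl, rfl⟩
  cases g <;> simp [src, tgt, V4] at h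

/-! ### codes -/

section code

variable {Nd : Type} {K : ℕ} (enc : Gn Nd K → ℕ)

/-- the code of a word -/
def toW : List (Gn Nd K) → Wd
  | [] => (0, [])
  | g :: l => (enc g, l.map enc)

/-- the difference of two words -/
def dif (a b : Wd) : QPoly := [((1, 0), a), ((-1, 0), b)]

theorem qval_dif {F : Type u} {B : Type v} [Field F] [NonUnitalRing B] [Module F B] (v : ℕ → B)
    (a b : Wd) : qval F v (dif a b) = wval v a - wval v b := by
  simp [qval, dif, sub_eq_add_neg]

theorem wval_toW {B : Type u} {A : Type v} [Mul B] [Monoid A] (f : B → A)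
    (hm : ∀ a b, f (a * b) = f a * f b) (v : ℕ → B) {w : List (Gn Nd K)} (hw : w ≠ []) :
    f (wval v (toW enc w)) = ev (fun g => f (v (enc g))) w := by
  cases w with
  | nil => exact absurd rfl hw
  | cons g l =>
    rw [wval_map f hm]
    unfold wval toW ev
    rw [lprod_eq, List.map_cons, List.map_map]
    rfl

end code

section main

variable {Nd : Type} {K : ℕ} (M : AM Nd K) (enc : Gn Nd K → ℕ)

/-- the premises as a set -/
def premS : Set QPoly := (fun w => dif (toW enc w.1) (toW enc w.2)) '' rels M

theorem premS_finite [Finite Nd] : (premS M enc).Finite := (rels_finite M).image _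

/-- the premises -/
noncomputable def prem [Finite Nd] : List QPoly := (premS_finite M enc).toFinset.toList

theorem mem_prem [Finite Nd] (p : QPoly) : p ∈ prem M enc ↔ p ∈ premS M enc := by
  simp [prem]

/-- the word of a configuration in which only the first register is used -/
def cw (k : ℕ) : List (Gn Nd K) :=
  .L :: .q M.st :: ((List.replicate k (0 : Fin (K + 1))).map .y ++ [.R])

/-- the conclusion -/
def concl (k : ℕ) : QPoly := dif (toW enc (cw M k)) (toW enc [.L, .h, .R])

theorem cl_replicate (k : ℕ) : cl (List.replicate k (0 : Fin (K + 1))) = rini k := by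
  funext i
  unfold cl rini
  rw [List.count_replicate]
  by_cases h : i = 0
  · subst h; simp
  · have : ¬ (0 : Fin (K + 1)) = i := fun e => h e.symm
    simp [h, this]

/-- If the machine halts then the quasi-identity holds in all algebras. -/
theorem sound [Finite Nd] {k : ℕ} (hh : M.Hlt M.st (rini k)) (F : Type u) [Field F]
    (B : Type v) [NonUnitalRing B] [Module F B] [IsScalarTower F B B] [SMulCommClass F B B] :
    Holds F B (prem M enc, concl M enc k) := by
  intro v hv
  let f : B → Unitization F B := fun b => (b : Unitization F B)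
  have hm : ∀ a b, f (a * b) = f a * f b := fun a b => Unitization.inr_mul F a b
  have hinj : Function.Injective f := Unitization.inr_injective
  have hr : ∀ w ∈ rels M, ev (fun g => f (v (enc g))) w.1 = ev (fun g => f (v (enc g))) w.2 := by
    intro w hw
    have h1 := hv _ ((mem_prem M enc _).2 ⟨w, hw, rfl⟩)
    simp only at h1
    rw [qval_dif, sub_eq_zero] at h1
    rw [← wval_toW enc f hm v (rels_ne M hw).1, ← wval_toW enc f hm v (rels_ne M hw).2, h1]
  have h2 := der M hr hh (List.replicate k 0) (fun i => congrFun (cl_replicate k) i)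
  change qval F v (concl M enc k) = 0
  unfold concl
  rw [qval_dif, sub_eq_zero]
  apply hinj
  rw [wval_toW enc f hm v (by simp [cw]), wval_toW enc f hm v (by simp)]
  simp only [cw, ev_cons, ev_append, ev_nil, mul_one]
  exact h2

/-- If the machine does not halt then the quasi-identity fails in the quotient. -/
theorem complete [Finite Nd] (henc : Function.Injective enc) {k : ℕ}
    (hh : ¬ M.Hlt M.st (rini k)) {F : Type u} [Field F] {ι : Type} [Fintype ι] [DecidableEq ι]
    (V : Vx ι) (E : NonUnitalSubalgebra F (Matrix ι ι (Pl F Nd K))) (hE : ∀ g, gm F V g ∈ E) :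
    ¬ Holds F (Cq M V E) (prem M enc, concl M enc k) := by
  intro h
  let f : Cq M V E → Qa F M V := fun c => c
  have hm : ∀ a b, f (a * b) = f a * f b := fun _ _ => rfl
  have hinj : Function.Injective f := Subtype.val_injective
  let v : ℕ → Cq M V E := Function.extend enc (cg M V E hE) 0
  have hv : ∀ g, f (v (enc g)) = gv F M V g := by
    intro g
    simp only [v]
    rw [henc.extend_apply]
    rfl
  have h1 := h v (by
    intro p hp
    obtain ⟨w, hw, rfl⟩ := (mem_prem M enc p).1 hp
    simp only
    rw [qval_dif, sub_eq_zero]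
    apply hinj
    rw [wval_toW enc f hm v (rels_ne M hw).1, wval_toW enc f hm v (rels_ne M hw).2]
    simp only [hv]
    exact gv_rels M V w hw)
  change qval F v (concl M enc k) = 0 at h1
  unfold concl at h1
  rw [qval_dif, sub_eq_zero] at h1
  have h2 := congrArg f h1
  rw [wval_toW enc f hm v (by simp [cw]), wval_toW enc f hm v (by simp)] at h2
  simp only [hv] at h2
  exact gv_ne M V (a := M.st) (l := List.replicate k 0) (by rw [cl_replicate]; exact hh) h2

theorem primrec_replicate (a : ℕ) : Primrec fun k : ℕ => List.replicate k a := by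
  refine (Primrec.nat_rec₁ (f := fun _ l => a :: l) ([] : List ℕ) ?_).of_eq ?_
  · exact Primrec.list_cons.comp (Primrec.const a) Primrec.snd
  · intro k
    induction k with
    | zero => rfl
    | succ k ih =>
      rw [List.replicate_succ]
      exact congrArg _ ih

theorem concl_computable : Computable (concl M enc) := by
  apply Primrec.to_comp
  have h1 : Primrec fun k : ℕ => toW enc (cw M k) := by
    have h2 : Primrec fun k : ℕ => ((enc .L, enc (.q M.st) ::
        (List.replicate k (enc (.y 0)) ++ [enc .R])) : Wd) :=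
      (Primrec.const _).pair (Primrec.list_cons.comp (Primrec.const _)
        (Primrec.list_append.comp (primrec_replicate _) (Primrec.const _)))
    refine h2.of_eq fun k => ?_
    simp [toW, cw, List.map_replicate]
  exact Primrec.list_cons.comp ((Primrec.const _).pair h1) (Primrec.const _)

/-- The reduction. -/
theorem red [Finite Nd] (hund : ¬ ComputablePred fun x : ℕ => M.Hlt M.st (rini x))
    (henc : Function.Injective enc) {F : Type u} [Field F] {ι : Type} [Fintype ι] [DecidableEq ι]
    (V : Vx ι) (E : NonUnitalSubalgebra F (Matrix ι ι (Pl F Nd K))) (hE : ∀ g, gm F V g ∈ E)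
    (T : ∀ (B : Type u) [NonUnitalRing B] [Module F B] [IsScalarTower F B B]
      [SMulCommClass F B B], Prop) (hT : T (Cq M V E)) :
    ¬ ComputablePred fun c : QPoly => ∀ (B : Type u) [NonUnitalRing B] [Module F B]
      [IsScalarTower F B B] [SMulCommClass F B B], T B → Holds F B (prem M enc, c) := by
  intro hc
  apply hund
  refine ComputablePred.computable_of_manyOneReducible ⟨concl M enc, concl_computable M enc, ?_⟩ hc
  intro k
  constructor
  · intro hh B _ _ _ _ _
    exact sound M enc hh F B
  · intro h
    by_contra hh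
    exact complete M enc henc hh V E hE (h _ hT)

end main

instance gn_countable {Nd : Type} {K : ℕ} [Finite Nd] : Countable (Gn Nd K) := by
  have : Function.Injective (fun g : Gn Nd K => match g with
    | .L => (Sum.inl 0 : (Fin 3) ⊕ ((Fin (K + 1) ⊕ Fin (K + 1)) ⊕ (Nd ⊕ Nd)))
    | .R => Sum.inl 1
    | .h => Sum.inl 2
    | .x i => Sum.inr (.inl (.inl i))
    | .y i => Sum.inr (.inl (.inr i))
    | .q a => Sum.inr (.inr (.inl a))
    | .p a => Sum.inr (.inr (.inr a))) := by
    intro a b h
    cases a <;> cases b <;> simp_all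
  exact this.countable

/-- **Main theorem.** There is a finite list `pr` of polynomials such that, over every field `F` of
characteristic zero, no algorithm decides from a polynomial `c` whether the quasi-identity with the
premises `pr` and the conclusion `c` holds in all the algebras of `T`, where `T` is `M(n)` with
`n ≥ 3`, or `S(n)` with `n ≥ 6`, or any class of algebras that contains `M(3)`. In particular the
equality problem is undecidable in `M(n)` for `n ≥ 3` and in `S(n)` for `n ≥ 6`. -/
theorem result :
    (∀ (F : Type u) [Field F] [CharZero F],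
      (∀ n : ℕ, 3 ≤ n → ¬ ComputablePred (EqM F n)) ∧
      (∀ n : ℕ, 6 ≤ n → ¬ ComputablePred (EqS F n))) ∧
    ∃ pr : List QPoly, ∀ (F : Type u) [Field F] [CharZero F],
      (∀ n : ℕ, 3 ≤ n → ¬ ComputablePred fun c : QPoly => EqM F n (pr, c)) ∧
      (∀ n : ℕ, 6 ≤ n → ¬ ComputablePred fun c : QPoly => EqS F n (pr, c)) ∧
      (∀ T : (∀ (B : Type u) [NonUnitalRing B] [Module F B] [IsScalarTower F B B]
          [SMulCommClass F B B], Prop),
        (∀ (B : Type u) [NonUnitalRing B] [Module F B] [IsScalarTower F B B]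
          [SMulCommClass F B B], InM F 3 B → T B) →
        ¬ ComputablePred fun c : QPoly => ∀ (B : Type u) [NonUnitalRing B] [Module F B]
          [IsScalarTower F B B] [SMulCommClass F B B], T B → Holds F B (pr, c)) := by
  have key : ∃ pr : List QPoly, ∀ (F : Type u) [Field F] [CharZero F],
      (∀ n : ℕ, 3 ≤ n → ¬ ComputablePred fun c : QPoly => EqM F n (pr, c)) ∧
      (∀ n : ℕ, 6 ≤ n → ¬ ComputablePred fun c : QPoly => EqS F n (pr, c)) ∧
      (∀ T : (∀ (B : Type u) [NonUnitalRing B] [Module F B] [IsScalarTower F B B]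
          [SMulCommClass F B B], Prop),
        (∀ (B : Type u) [NonUnitalRing B] [Module F B] [IsScalarTower F B B]
          [SMulCommClass F B B], InM F 3 B → T B) →
        ¬ ComputablePred fun c : QPoly => ∀ (B : Type u) [NonUnitalRing B] [Module F B]
          [IsScalarTower F B B] [SMulCommClass F B B], T B → Holds F B (pr, c)) := by
    obtain ⟨Nd, hfin, K, M, hund⟩ := exists_am
    obtain ⟨enc, henc⟩ := Countable.exists_injective_nat (Gn Nd K)
    refine ⟨prem M enc, fun F _ _ => ⟨?_, ?_, ?_⟩⟩
    · intro n hn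
      refine red M enc hund henc V3 (⊤ : NonUnitalSubalgebra F (Matrix (Fin 3) (Fin 3) (Pl F Nd K)))
        (fun _ => trivial) (fun B _ _ _ _ => InM F n B) ?_
      intro p hp
      exact Cq_ident M V3 ⊤ (ident_up (ident_down hn hp))
    · intro n hn
      refine red M enc hund henc V4 (TrE F (Pl F Nd K)) gm_Tr (fun B _ _ _ _ => InS n B) ?_
      rintro m rfl x
      exact Cq_std M V4 _ (fun x hx => std_tri hn x hx) x
    · intro T hT
      refine red M enc hund henc V3 (⊤ : NonUnitalSubalgebra F (Matrix (Fin 3) (Fin 3) (Pl F Nd K)))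
        (fun _ => trivial) T (hT _ ?_)
      intro p hp
      exact Cq_ident M V3 ⊤ (ident_up hp)
  refine ⟨?_, key⟩
  obtain ⟨pr, h⟩ := key
  intro F _ _
  have hp : Computable fun c : QPoly => ((pr, c) : QId) := (Computable.const pr).pair Computable.id
  refine ⟨fun n hn hc => (h F).1 n hn ?_, fun n hn hc => (h F).2.1 n hn ?_⟩
  · exact ComputablePred.computable_of_manyOneReducible ⟨_, hp, fun _ => Iff.rfl⟩ hc
  · exact ComputablePred.computable_of_manyOneReducible ⟨_, hp, fun _ => Iff.rfl⟩ hc

end Pool.Agent.Results.MP_79b5eb_lc.MatrixVarieties
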